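import Pool.Agent.H49.KT.UTargets

/-!
Module DEC of the board kt2_modules (MP_5e53ef_lc): the decoder of the universal machine.
-/

namespace Pool.Agent.H84.KT

open Turing Function
open Pool.Agent.H49.KT Pool.Agent.H49.KT.Uni
open Pool.Agent.H49.KT.Uni.Tok

/-- the token stack of a phase -/
def ty (p : Fin 5) : Nw := if p = 0 then .prg' else if p = 1 then .p1 else .p2

variable (v : Me) (u : IO → List Bool) (z : Nw → List Tok)

theorem b0_0 (hp : v.ph ≠ 4) (hp3 : v.ph ≠ 3) (hc : v.ct = 0) :
    Spec body0 (mk2 v u z) (mk2 ((v.sb1 v.a).sct 1) u z) 4 := by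
  unfold body0
  exact Spec.ite_f (by simp [hp]) (Spec.ite_f (by simp [hp3])
    (Spec.ite_t (by simp [hc]) (sp_load v u z _)))

theorem b0_1 (hp : v.ph ≠ 4) (hp3 : v.ph ≠ 3) (hc : v.ct = 1) :
    Spec body0 (mk2 v u z) (mk2 ((v.sb2 v.a).sct 2) u z) 5 := by
  unfold body0
  exact Spec.ite_f (by simp [hp]) (Spec.ite_f (by simp [hp3])
    (Spec.ite_f (by simp [hc]) (Spec.ite_t (by simp [hc]) (sp_load v u z _))))

theorem b0_x (hp : v.ph ≠ 4) (hp3 : v.ph ≠ 3) (hc : v.ct = 2) (hx : ofB v.b1 v.b2 v.a = tx) :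
    Spec body0 (mk2 v u z)
      (mk2 (((v.sr (ofB v.b1 v.b2 v.a)).sct 0).sph (v.ph + 1)) u z) 7 := by
  unfold body0
  refine (Spec.ite_f (by simp [hp]) (Spec.ite_f (by simp [hp3])
    (Spec.ite_f (by simp [hc]) (Spec.ite_f (by simp [hc]) (Spec.seq (sp_load v u z _)
      (Spec.ite_t (by simp [hx]) (sp_load _ u z _))))))).mono (by norm_num)

theorem b0_t (hp : v.ph ≠ 4) (hp3 : v.ph ≠ 3) (hc : v.ct = 2) (hx : ofB v.b1 v.b2 v.a ≠ tx) :
    Spec body0 (mk2 v u z)
      (mk2 ((v.sr (ofB v.b1 v.b2 v.a)).sct 0) u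
        (update z (ty v.ph) (ofB v.b1 v.b2 v.a :: z (ty v.ph)))) 9 := by
  unfold body0
  by_cases h0 : v.ph = 0
  · have e : ty v.ph = .prg' := by simp [ty, h0]
    rw [e]
    refine (Spec.ite_f (by simp [hp]) (Spec.ite_f (by simp [hp3])
      (Spec.ite_f (by simp [hc]) (Spec.ite_f (by simp [hc]) (Spec.seq (sp_load v u z _)
        (Spec.ite_f (by simpa using hx) (Spec.ite_t (by simp [h0])
          (sp_pushr _ u z .prg')))))))).mono (by norm_num)
  · by_cases h1 : v.ph = 1
    · have e : ty v.ph = .p1 := by simp [ty, h1]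
      rw [e]
      refine (Spec.ite_f (by simp [hp]) (Spec.ite_f (by simp [hp3])
        (Spec.ite_f (by simp [hc]) (Spec.ite_f (by simp [hc]) (Spec.seq (sp_load v u z _)
          (Spec.ite_f (by simpa using hx) (Spec.ite_f (by simp [h0]) (Spec.ite_t (by simp [h1])
            (sp_pushr _ u z .p1))))))))).mono (by norm_num)
    · have e : ty v.ph = .p2 := by simp [ty, h0, h1]
      rw [e]
      refine (Spec.ite_f (by simp [hp]) (Spec.ite_f (by simp [hp3])
        (Spec.ite_f (by simp [hc]) (Spec.ite_f (by simp [hc]) (Spec.seq (sp_load v u z _)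
          (Spec.ite_f (by simpa using hx) (Spec.ite_f (by simp [h0]) (Spec.ite_f (by simp [h1])
            (sp_pushr _ u z .p2))))))))).mono (by norm_num)

theorem ofB_bits (t : Tok) : ∃ x y w, t.bits = [x, y, w] ∧ ofB x y w = t := by
  cases t <;> exact ⟨_, _, _, rfl, rfl⟩

theorem segI_mono {c : C2} {l : List Bool} {s s' : S2} {T T' : ℕ} (h : SegI c l s s' T)
    (hT : T ≤ T') : SegI c l s s' T' := ⟨h.1, h.2.trans (by omega)⟩

/-- one token different from `tx` -/
theorem seg_tok (t : Tok) (ht : t ≠ tx) (hp : v.ph ≠ 4) (hp3 : v.ph ≠ 3) (hc : v.ct = 0) :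
    ∃ v', v'.ct = 0 ∧ v'.ph = v.ph ∧
      SegI body0 t.bits (mk2 v u z) (mk2 v' u (update z (ty v.ph) (t :: z (ty v.ph)))) 21 := by
  obtain ⟨x, y, w, hb, hx⟩ := ofB_bits t
  rw [hb]
  have s1 := b0_0 (v.sa x) u z hp hp3 hc
  have s2 := b0_1 ((((v.sa x).sb1 x).sct 1).sa y) u z hp hp3 rfl
  have hx' : ofB x y w ≠ tx := by rw [hx]; exact ht
  have s3 : Spec body0 (mk2 (((((((v.sa x).sb1 x).sct 1).sa y).sb2 y).sct 2).sa w) u z)
      (mk2 (((((((((v.sa x).sb1 x).sct 1).sa y).sb2 y).sct 2).sa w).sr (ofB x y w)).sct 0) u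
        (update z (ty v.ph) (ofB x y w :: z (ty v.ph)))) 9 :=
    b0_t ((((((v.sa x).sb1 x).sct 1).sa y).sb2 y).sct 2 |>.sa w) u z hp hp3 rfl hx'
  rw [hx] at s3
  exact ⟨(((((((((v.sa x).sb1 x).sct 1).sa y).sb2 y).sct 2).sa w).sr t).sct 0), rfl, rfl,
    SegI.cons s1 (SegI.cons s2 (SegI.cons s3 (SegI.nil _ _)))⟩

/-- the token `tx` -/
theorem seg_tx (hp : v.ph ≠ 4) (hp3 : v.ph ≠ 3) (hc : v.ct = 0) :
    ∃ v', v'.ct = 0 ∧ v'.ph = v.ph + 1 ∧
      SegI body0 tx.bits (mk2 v u z) (mk2 v' u z) 21 := by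
  have s1 := b0_0 (v.sa true) u z hp hp3 hc
  have s2 := b0_1 ((((v.sa true).sb1 true).sct 1).sa true) u z hp hp3 rfl
  have s3 : Spec body0 (mk2 (((((((v.sa true).sb1 true).sct 1).sa true).sb2 true).sct 2).sa true)
        u z)
      (mk2 ((((((((((v.sa true).sb1 true).sct 1).sa true).sb2 true).sct 2).sa true).sr
        tx).sct 0).sph (v.ph + 1)) u z) 7 :=
    b0_x ((((((v.sa true).sb1 true).sct 1).sa true).sb2 true).sct 2 |>.sa true) u z hp hp3 rfl rfl
  exact ⟨_, rfl, rfl,
    segI_mono (SegI.cons s1 (SegI.cons s2 (SegI.cons s3 (SegI.nil _ _)))) (by norm_num)⟩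

/-- a list of tokens different from `tx` -/
theorem seg_list (l : List Tok) : ∀ (v : Me) (z : Nw → List Tok), tx ∉ l → v.ph ≠ 4 →
    v.ph ≠ 3 → v.ct = 0 → ∃ v', v'.ct = 0 ∧ v'.ph = v.ph ∧
      SegI body0 (bitsOf l) (mk2 v u z)
        (mk2 v' u (update z (ty v.ph) (l.reverse ++ z (ty v.ph)))) (21 * l.length) := by
  induction l with
  | nil =>
    intro v z _ _ _ hc
    refine ⟨v, hc, rfl, ?_⟩
    simp only [List.reverse_nil, List.nil_append, update_eq_self]
    exact SegI.nil _ _
  | cons t l ih =>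
    intro v z hl hp hp3 hc
    have ht : t ≠ tx := fun h => hl (by simp [h])
    have hl' : tx ∉ l := fun h => hl (by simp [h])
    obtain ⟨v1, h1, h2, h3⟩ := seg_tok v u z t ht hp hp3 hc
    obtain ⟨v2, h4, h5, h6⟩ := ih v1 (update z (ty v.ph) (t :: z (ty v.ph))) hl'
      (by rw [h2]; exact hp) (by rw [h2]; exact hp3) h1
    refine ⟨v2, h4, h5.trans h2, ?_⟩
    rw [h2, update_self, update_idem] at h6
    have e2 : (t :: l).reverse ++ z (ty v.ph) = l.reverse ++ t :: z (ty v.ph) := by simp
    rw [e2]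
    have e3 : bitsOf (t :: l) = t.bits ++ bitsOf l := rfl
    rw [e3]
    exact segI_mono (h3.append h6) (by simp only [List.length_cons]; omega)

/-- a data bit -/
theorem b0_d (hp : v.ph = 4) :
    Spec body0 (mk2 v u z) (mk2 v u (update z .dd ((encS v.a.toNat).reverse ++ z .dd))) 5 := by
  unfold body0
  cases ha : v.a
  · refine (Spec.ite_t (by simp [hp]) (Spec.ite_f ha ?_)).mono (by norm_num : 2 + 1 + 1 ≤ 5)
    have e := Spec.seq (sp_pusht v u z .dd t1) (sp_pusht v u _ .dd tc)
    simp only [update_self, update_idem] at e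
    exact e
  · refine (Spec.ite_t (by simp [hp]) (Spec.ite_t ha ?_)).mono (by norm_num : 3 + 1 + 1 ≤ 5)
    have e := Spec.seq (sp_pusht v u z .dd t1) (Spec.seq (sp_pusht v u _ .dd t1)
      (sp_pusht v u _ .dd tc))
    simp only [update_self, update_idem] at e
    exact e

/-- the data -/
theorem seg_data (d : List Bool) : ∀ (v : Me) (z : Nw → List Tok), v.ph = 4 →
    ∃ v', v'.ng = v.ng ∧
      SegI body0 d (mk2 v u z)
        (mk2 v' u (update z .dd ((encW (d.map Bool.toNat)).reverse ++ z .dd)))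
        (6 * d.length) := by
  induction d with
  | nil =>
    intro v z _
    refine ⟨v, rfl, ?_⟩
    simp only [List.map_nil, encW, List.flatMap_nil, List.reverse_nil, List.nil_append,
      update_eq_self]
    exact SegI.nil _ _
  | cons a d ih =>
    intro v z hp
    have s1 := b0_d (v.sa a) u z hp
    obtain ⟨v2, h4, h6⟩ := ih (v.sa a) (update z .dd ((encS a.toNat).reverse ++ z .dd)) hp
    refine ⟨v2, h4, ?_⟩
    rw [update_self, update_idem] at h6
    have e2 : (encW ((a :: d).map Bool.toNat)).reverse ++ z .dd =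
        (encW (d.map Bool.toNat)).reverse ++ ((encS a.toNat).reverse ++ z .dd) := by
      simp [encW]
    rw [e2]
    exact segI_mono (SegI.cons s1 h6) (by simp only [List.length_cons]; omega)

theorem tx_rep (k : ℕ) (t : Tok) (h : tx ≠ t) : tx ∉ List.replicate k t := by
  intro h'
  exact h (List.mem_replicate.1 h').2

theorem tx_encS (y : ℕ) : tx ∉ encS y := by
  unfold encS
  rw [List.mem_append, not_or]
  exact ⟨tx_rep _ _ (by decide), by decide⟩

theorem tx_encW (w : List ℕ) : tx ∉ encW w := by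
  unfold encW
  rw [List.mem_flatMap]
  rintro ⟨y, _, h⟩
  exact tx_encS y h

theorem tx_encE (a : Ent) : tx ∉ encE a := by
  unfold encE
  rw [List.mem_cons, List.mem_append, List.mem_cons, not_or, not_or, not_or]
  exact ⟨by decide, tx_encW _, by decide, tx_rep _ _ (by decide)⟩

theorem tx_encB (a : Blk) : tx ∉ encB a := by
  unfold encB
  rw [List.mem_cons, List.mem_append, not_or, not_or, List.mem_flatMap]
  refine ⟨by decide, tx_rep _ _ (by decide), ?_⟩
  rintro ⟨y, _, h⟩
  exact tx_encE y h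

theorem tx_encP (B : List Blk) : tx ∉ encP B := by
  unfold encP
  rw [List.mem_flatMap]
  rintro ⟨y, _, h⟩
  exact tx_encB y h

theorem bitsOf_append (l l' : List Tok) : bitsOf (l ++ l') = bitsOf l ++ bitsOf l' := by
  simp [bitsOf]

theorem bitsOf_length (l : List Tok) : (bitsOf l).length = 3 * l.length := by
  induction l with
  | nil => rfl
  | cons t l ih =>
    have e3 : bitsOf (t :: l) = t.bits ++ bitsOf l := rfl
    rw [e3, List.length_append, ih, List.length_cons]
    have : t.bits.length = 3 := by cases t <;> rfl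
    omega

/-- a list of tokens closed by `tx` -/
theorem seg_ltx (l : List Tok) (v : Me) (z : Nw → List Tok) (hl : tx ∉ l) (hp : v.ph ≠ 4)
    (hp3 : v.ph ≠ 3) (hc : v.ct = 0) : ∃ v', v'.ct = 0 ∧ v'.ph = v.ph + 1 ∧
      SegI body0 (bitsOf (l ++ [tx])) (mk2 v u z)
        (mk2 v' u (update z (ty v.ph) (l.reverse ++ z (ty v.ph)))) (21 * l.length + 21) := by
  obtain ⟨v1, h1, h2, h3⟩ := seg_list u l v z hl hp hp3 hc
  obtain ⟨v2, h4, h5, h6⟩ := seg_tx v1 u (update z (ty v.ph) (l.reverse ++ z (ty v.ph)))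
    (by rw [h2]; exact hp) (by rw [h2]; exact hp3) h1
  refine ⟨v2, h4, by rw [h5, h2], ?_⟩
  rw [bitsOf_append]
  have e : bitsOf [tx] = tx.bits := by simp [bitsOf]
  rw [e]
  exact h3.append h6

/-- the flag -/
theorem seg_ng (b : Bool) (hp : v.ph = 3) :
    ∃ v', v'.ng = b ∧ v'.ph = 4 ∧ SegI body0 [b] (mk2 v u z) (mk2 v' u z) 4 := by
  have s1 : Spec body0 (mk2 (v.sa b) u z) (mk2 (((v.sa b).sng b).sph 4) u z) 3 := by
    unfold body0
    exact Spec.ite_f (by simp [hp]) (Spec.ite_t (by simp [hp]) (sp_load _ u z _))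
  exact ⟨_, rfl, rfl, SegI.cons s1 (SegI.nil _ _)⟩

/-- the whole input -/
theorem seg_all (B : List Blk) (j k : ℕ) (ng : Bool) (d : List Bool) (hc : v.ct = 0)
    (hp : v.ph = 0) : ∃ v', v'.ng = ng ∧
      SegI body0 (codeU B j k ng ++ d) (mk2 v u e₀)
        (mk2 v' u (update (update (update (update e₀ .prg' (encP B).reverse)
          .p1 (List.replicate j ts ++ [ts]).reverse) .p2 (List.replicate k ts).reverse)
          .dd (encW (d.map Bool.toNat)).reverse))
        (7 * (codeU B j k ng).length + 6 * d.length) := by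
  obtain ⟨v1, a1, a2, a3⟩ := seg_ltx u (encP B) v e₀ (tx_encP B) (by rw [hp]; decide)
    (by rw [hp]; decide) hc
  obtain ⟨v2, b1, b2, b3⟩ := seg_ltx u (List.replicate j ts ++ [ts]) v1
    (update e₀ .prg' (encP B).reverse)
    (by rw [List.mem_append, not_or]; exact ⟨tx_rep _ _ (by decide), by decide⟩)
    (by rw [a2, hp]; decide) (by rw [a2, hp]; decide) a1
  obtain ⟨v3, c1, c2, c3⟩ := seg_ltx u (List.replicate k ts) v2
    (update (update e₀ .prg' (encP B).reverse) .p1 (List.replicate j ts ++ [ts]).reverse)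
    (tx_rep _ _ (by decide))
    (by rw [b2, a2, hp]; decide) (by rw [b2, a2, hp]; decide) b1
  obtain ⟨v4, d1, d2, d3⟩ := seg_ng v3 u
    (update (update (update e₀ .prg' (encP B).reverse) .p1 (List.replicate j ts ++ [ts]).reverse)
      .p2 (List.replicate k ts).reverse) ng (by rw [c2, b2, a2, hp]; decide)
  obtain ⟨v5, e1, e2⟩ := seg_data u d v4
    (update (update (update e₀ .prg' (encP B).reverse) .p1 (List.replicate j ts ++ [ts]).reverse)
      .p2 (List.replicate k ts).reverse) d2
  have ta : ty v.ph = .prg' := by rw [hp]; rfl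
  have tb' : ty v1.ph = .p1 := by rw [a2, hp]; rfl
  have tc' : ty v2.ph = .p2 := by rw [b2, a2, hp]; rfl
  rw [ta] at a3
  rw [tb'] at b3
  rw [tc'] at c3
  refine ⟨v5, e1.trans d1, ?_⟩
  have f1 : e₀ .prg' = [] := rfl
  have f2 : update e₀ Nw.prg' (encP B).reverse .p1 = [] := rfl
  have f3 : update (update e₀ Nw.prg' (encP B).reverse) .p1
    (List.replicate j ts ++ [ts]).reverse .p2 = [] := rfl
  have f4 : update (update (update e₀ Nw.prg' (encP B).reverse) .p1
    (List.replicate j ts ++ [ts]).reverse) .p2 (List.replicate k ts).reverse .dd = [] := rfl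
  rw [f1, List.append_nil] at a3
  rw [f2, List.append_nil] at b3
  rw [f3, List.append_nil] at c3
  rw [f4, List.append_nil] at e2
  have g1 : List.replicate j ts ++ [ts, tx] = List.replicate j ts ++ [ts] ++ [tx] := by simp
  unfold codeU
  rw [g1]
  have h := (a3.append ((b3.append (c3.append d3)).append e2))
  have g2 : bitsOf (encP B ++ [tx]) ++ (bitsOf (List.replicate j ts ++ [ts] ++ [tx]) ++
      (bitsOf (List.replicate k ts ++ [tx]) ++ [ng])) ++ d =
      bitsOf (encP B ++ [tx]) ++ (bitsOf (List.replicate j ts ++ [ts] ++ [tx]) ++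
      (bitsOf (List.replicate k ts ++ [tx]) ++ [ng]) ++ d) := by simp
  rw [g2]
  refine segI_mono h ?_
  simp only [List.length_append, bitsOf_length, List.length_replicate, List.length_cons,
    List.length_nil]
  omega

theorem encC_rep (k : ℕ) : encC (List.replicate k []) = List.replicate k ts := by
  induction k with
  | zero => rfl
  | succ k ih =>
    rw [List.replicate_succ, List.replicate_succ, ← ih]
    rfl

theorem encC_app (L L' : List (List ℕ)) : encC (L ++ L') = encC L ++ encC L' := by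
  simp [encC]

theorem encW_len (d : List Bool) : (encW (d.map Bool.toNat)).length ≤ 3 * d.length := by
  induction d with
  | nil => simp [encW]
  | cons a d ih =>
    have e : encW ((a :: d).map Bool.toNat) = encS a.toNat ++ encW (d.map Bool.toNat) := rfl
    rw [e, List.length_append, List.length_cons]
    have : (encS a.toNat).length ≤ 3 := by cases a <;> simp [encS]
    omega

theorem pf_DEC : T_DEC := by
  intro v u B j k ng d hu hc hp
  obtain ⟨v1, a1, a2⟩ := seg_all v (update u .inp []) B j k ng d hc hp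
  have s1 := sp_lpi hu a2
  set z1 := update (update (update (update e₀ Nw.prg' (encP B).reverse)
          .p1 (List.replicate j ts ++ [ts]).reverse) .p2 (List.replicate k ts).reverse)
          .dd (encW (d.map Bool.toNat)).reverse with hz1
  obtain ⟨t2, s2⟩ := sp_mv v1 (update u .inp []) z1 (y := .prg') (y' := .prg) (by decide)
  set z2 := update (update z1 Nw.prg' []) .prg ((z1 .prg').reverse ++ z1 .prg) with hz2
  obtain ⟨t3, s3⟩ := sp_mv (v1.sr t2) (update u .inp []) z2 (y := .p2) (y' := .cfg) (by decide)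
  set z3 := update (update z2 Nw.p2 []) .cfg ((z2 .p2).reverse ++ z2 .cfg) with hz3
  obtain ⟨t4, s4⟩ := sp_mv ((v1.sr t2).sr t3) (update u .inp []) z3 (y := .dd) (y' := .cfg)
    (by decide)
  set z4 := update (update z3 Nw.dd []) .cfg ((z3 .dd).reverse ++ z3 .cfg) with hz4
  obtain ⟨t5, s5⟩ := sp_mv (((v1.sr t2).sr t3).sr t4) (update u .inp []) z4 (y := .p1)
    (y' := .cfg) (by decide)
  set z5 := update (update z4 Nw.p1 []) .cfg ((z4 .p1).reverse ++ z4 .cfg) with hz5
  have s6 := sp_pusht ((((v1.sr t2).sr t3).sr t4).sr t5) (update u .inp []) z5 .q t1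
  have key := Spec.seq s1 (Spec.seq s2 (Spec.seq s3 (Spec.seq s4 (Spec.seq s5 s6))))
  refine ⟨((((v1.sr t2).sr t3).sr t4).sr t5), a1, ?_⟩
  have hz : update z5 Nw.q (t1 :: z5 .q) = update (update (update e₀ .prg (encP B))
        .cfg (encC (L₀ j k d))) .q [t1] := by
    have hL : encC (L₀ j k d) = List.replicate j ts ++ [ts] ++
        (encW (d.map Bool.toNat) ++ List.replicate k ts) := by
      unfold L₀
      rw [encC_app, encC_rep]
      have : encC (d.map Bool.toNat :: List.replicate k []) =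
        ts :: encW (d.map Bool.toNat) ++ encC (List.replicate k []) := rfl
      rw [this, encC_rep]
      simp
    rw [hL]
    have w1 : z1 .prg' = (encP B).reverse := rfl
    have w2 : z1 .prg = [] := rfl
    have w3 : z2 .p2 = (List.replicate k ts).reverse := rfl
    have w4 : z2 .cfg = [] := rfl
    have w5 : z3 .dd = (encW (d.map Bool.toNat)).reverse := rfl
    have w6 : z3 .cfg = (z2 .p2).reverse ++ z2 .cfg := rfl
    have w7 : z4 .p1 = (List.replicate j ts ++ [ts]).reverse := rfl
    have w8 : z4 .cfg = (z3 .dd).reverse ++ z3 .cfg := rfl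
    have w9 : z5 .q = [] := rfl
    funext y
    cases y
    case prg =>
      show (z1 .prg').reverse ++ z1 .prg = encP B
      rw [w1, w2, List.reverse_reverse, List.append_nil]
    case cfg =>
      show (z4 .p1).reverse ++ z4 .cfg = _
      rw [w7, w8, w5, w6, w3, w4, List.reverse_reverse, List.reverse_reverse,
        List.reverse_reverse, List.append_nil]
      rfl
    all_goals rfl
  rw [hz] at key
  refine Spec.mono key ?_
  have w1 : (z1 .prg').length = (encP B).length := by
    show ((encP B).reverse).length = _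
    rw [List.length_reverse]
  have w3 : (z2 .p2).length = k := by
    show ((List.replicate k ts).reverse).length = _
    rw [List.length_reverse, List.length_replicate]
  have w5 : (z3 .dd).length ≤ 3 * d.length := by
    show ((encW (d.map Bool.toNat)).reverse).length ≤ _
    rw [List.length_reverse]
    exact encW_len d
  have w7 : (z4 .p1).length = j + 1 := by
    show ((List.replicate j ts ++ [ts]).reverse).length = _
    rw [List.length_reverse, List.length_append, List.length_replicate]
    rfl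
  have w0 : (codeU B j k ng).length = 3 * ((encP B).length + 1) + (3 * (j + 2) + (3 * (k + 1) + 1))
    := by
    unfold codeU
    simp only [List.length_append, bitsOf_length, List.length_replicate, List.length_cons,
      List.length_nil]
  rw [w1, w3, w7, w0]
  omega

end Pool.Agent.H84.KT
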